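import Mathlib

/-! # MP_8d137a_pr, Q1 (negative answer): 3-cycles of pattern races arbitrarily close to uniform

`s = 7`, `k = 3`, words `A = 010`, `B = 232`, `C = 454`. The law of the waiting time of `xyx` depends on
`p_x` and `u = p_x p_y` only: its tails satisfy `a (n+3) = a (n+2) - u a (n+1) + u (1 - p_x) a n`, and
`Pr(A > B) - 1/2 = (1/2) ∑ (a n b (n+1) - a (n+1) b n)`, which is an explicit rational function with
positive denominator `Df` and numerator `Nf`. Along the curve `p_0 = p_1 = 1/7`,
`(p_2, p_3) = (1 + K t, y(t)) / 7`, `(p_4, p_5) = (1 - K t, y(-t)) / 7` with the integer cubic `y = yB`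
all three numerators are `c t ^ 3 + O(t ^ 4)` with the same `c > 0`: the races `A-B`, `B-C`, `C-A` are
tied up to second order and the third order term is cyclic. -/

namespace Pool.Agent.Results.MP_8d137a_pr.CyclesNearUniform

open MeasureTheory ENNReal Filter
open scoped Topology

/-- The law of an i.i.d. sequence with one-letter law `p`. -/
noncomputable def iidLaw {s : ℕ} (p : PMF (Fin s)) : Measure (ℕ → Fin s) :=
  Measure.infinitePi (fun _ : ℕ => p.toMeasure)

instance {s : ℕ} (p : PMF (Fin s)) : IsProbabilityMeasure (iidLaw p) := by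
  unfold iidLaw; infer_instance

/-- The waiting time of the word `A`: the first `n ≥ k` such that the letters number
`n - k + 1, …, n` of the sequence spell `A` (letter number `j + 1` is `ω j`); `⊤` if there is none. -/
noncomputable def waiting {s k : ℕ} (A : Fin k → Fin s) (ω : ℕ → Fin s) : ℕ∞ :=
  ⨅ (n : ℕ) (_ : k ≤ n ∧ ∀ i : Fin k, ω (n - k + i) = A i), (n : ℕ∞)

/-- `Pr(A > B)`: each word is watched on its own sequence, ties are decided by a fair coin. -/
noncomputable def beats {s k : ℕ} (p : PMF (Fin s)) (A B : Fin k → Fin s) : ℝ :=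
  ((iidLaw p).prod (iidLaw p)).real {ω | waiting A ω.1 < waiting B ω.2} +
    1 / 2 * ((iidLaw p).prod (iidLaw p)).real {ω | waiting A ω.1 = waiting B ω.2}

section Shift

variable {s : ℕ} (p : PMF (Fin s))

/-- put a letter in front -/
def cons (q : Fin s × (ℕ → Fin s)) : ℕ → Fin s := fun n => Nat.casesOn n q.1 q.2

lemma measurable_cons : Measurable (cons (s := s)) := by
  rw [measurable_pi_iff]
  intro n
  cases n with
  | zero => exact measurable_fst
  | succ n => exact (measurable_pi_apply n).comp measurable_snd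

lemma map_cons : Measure.map cons (p.toMeasure.prod (iidLaw p)) = iidLaw p := by
  classical
  apply Measure.eq_infinitePi
  intro S t ht
  rw [Measure.map_apply measurable_cons (MeasurableSet.pi S.countable_toSet (fun i _ => ht i))]
  set S' : Finset ℕ := (S.erase 0).image (fun n => n - 1) with hS'
  have hmem : ∀ n, n ∈ S' ↔ n + 1 ∈ S := by
    intro n
    simp only [hS', Finset.mem_image, Finset.mem_erase]
    constructor
    · rintro ⟨m, ⟨hm0, hm⟩, rfl⟩
      have : m - 1 + 1 = m := by omega
      rwa [this]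
    · intro h
      exact ⟨n + 1, ⟨by omega, h⟩, by omega⟩
  have hpre : cons ⁻¹' (Set.pi (S : Set ℕ) t) =
      (if 0 ∈ S then t 0 else Set.univ) ×ˢ Set.pi (S' : Set ℕ) (fun n => t (n + 1)) := by
    ext ⟨c, ω⟩
    simp only [Set.mem_preimage, Set.mem_pi, Finset.mem_coe, Set.mem_prod]
    constructor
    · intro h
      constructor
      · split_ifs with h0
        · exact h 0 h0
        · trivial
      · intro n hn
        exact h (n + 1) ((hmem n).1 hn)
    · rintro ⟨h1, h2⟩ n hn
      cases n with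
      | zero => rw [if_pos hn] at h1; exact h1
      | succ n => exact h2 n ((hmem n).2 hn)
  rw [hpre, Measure.prod_prod]
  have h2 : iidLaw p (Set.pi (S' : Set ℕ) (fun n => t (n + 1))) =
      ∏ n ∈ S', p.toMeasure (t (n + 1)) := by
    unfold iidLaw
    rw [Measure.infinitePi_pi]
    intro i hi
    exact ht _
  rw [h2]
  have h3 : ∏ n ∈ S', p.toMeasure (t (n + 1)) = ∏ n ∈ S.erase 0, p.toMeasure (t n) := by
    rw [hS', Finset.prod_image]
    · apply Finset.prod_congr rfl
      intro n hn
      have : n - 1 + 1 = n := by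
        have := (Finset.mem_erase.1 hn).1
        omega
      rw [this]
    · intro a ha b hb hab
      have h1 := (Finset.mem_erase.1 ha).1
      have h2 := (Finset.mem_erase.1 hb).1
      simp only at hab
      omega
  rw [h3]
  split_ifs with h0
  · exact Finset.mul_prod_erase S (fun n => p.toMeasure (t n)) h0
  · rw [Finset.erase_eq_of_notMem h0, measure_univ, one_mul]

/-- first-step decomposition -/
lemma first_step (S : Set (ℕ → Fin s)) (hS : MeasurableSet S) :
    (iidLaw p).real S = ∑ c : Fin s, (p c).toReal *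
      (iidLaw p).real {ω | cons (c, ω) ∈ S} := by
  have h1 : iidLaw p S = ∑ c : Fin s, p c * iidLaw p {ω | cons (c, ω) ∈ S} := by
    conv_lhs => rw [← map_cons p]
    rw [Measure.map_apply measurable_cons hS]
    have : cons ⁻¹' S = ⋃ c : Fin s, ({c} : Set (Fin s)) ×ˢ {ω | cons (c, ω) ∈ S} := by
      ext ⟨c, ω⟩
      simp
    rw [this, measure_iUnion]
    · rw [tsum_fintype]
      apply Finset.sum_congr rfl
      intro c _
      rw [Measure.prod_prod, PMF.toMeasure_apply_singleton _ _ (measurableSet_singleton c)]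
    · intro a b hab
      rw [Function.onFun, Set.disjoint_left]
      rintro ⟨c, ω⟩ h1 h2
      simp only [Set.mem_prod, Set.mem_singleton_iff] at h1 h2
      exact hab (h1.1.symm.trans h2.1)
    · intro c
      apply MeasurableSet.prod (measurableSet_singleton c)
      exact (measurable_cons.comp (measurable_const.prodMk measurable_id)) hS
  unfold Measure.real
  rw [h1, ENNReal.toReal_sum]
  · apply Finset.sum_congr rfl
    intro c _
    rw [ENNReal.toReal_mul]
  · intro c _
    exact ENNReal.mul_ne_top (PMF.apply_ne_top _ _) (measure_ne_top _ _)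

end Shift

section Waiting

variable {s k : ℕ}

/-- an occurrence of `A` ending at time `n` -/
def Occ (A : Fin k → Fin s) (ω : ℕ → Fin s) (n : ℕ) : Prop :=
  k ≤ n ∧ ∀ i : Fin k, ω (n - k + i) = A i

lemma lt_waiting (A : Fin k → Fin s) (ω : ℕ → Fin s) (n : ℕ) :
    (n : ℕ∞) < waiting A ω ↔ ∀ m, m ≤ n → ¬ Occ A ω m := by
  constructor
  · intro h m hm hocc
    have : waiting A ω ≤ (m : ℕ∞) := iInf₂_le m hocc
    have h2 := lt_of_lt_of_le h this
    rw [Nat.cast_lt] at h2
    omega
  · intro h
    have : ((n + 1 : ℕ) : ℕ∞) ≤ waiting A ω := by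
      refine le_iInf₂ fun m hm => ?_
      rw [Nat.cast_le]
      by_contra hcon
      exact h m (by omega) hm
    exact lt_of_lt_of_le (by rw [Nat.cast_lt]; omega) this

lemma measurableSet_occ (A : Fin k → Fin s) (n : ℕ) : MeasurableSet {ω | Occ A ω n} := by
  by_cases h : k ≤ n
  · have : {ω : ℕ → Fin s | Occ A ω n} = ⋂ i : Fin k, (fun ω => ω (n - k + i)) ⁻¹' {A i} := by
      ext ω
      simp [Occ, h]
    rw [this]
    exact MeasurableSet.iInter fun i => (measurable_pi_apply _) (measurableSet_singleton _)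
  · have : {ω : ℕ → Fin s | Occ A ω n} = ∅ := by
      ext ω
      simp [Occ, h]
    rw [this]
    exact MeasurableSet.empty

lemma measurableSet_lt_waiting (A : Fin k → Fin s) (n : ℕ) :
    MeasurableSet {ω | (n : ℕ∞) < waiting A ω} := by
  have : {ω : ℕ → Fin s | (n : ℕ∞) < waiting A ω} = ⋂ m ∈ Finset.range (n + 1), {ω | Occ A ω m}ᶜ := by
    ext ω
    rw [Set.mem_ofPred_eq, lt_waiting]
    simp
  rw [this]
  exact Finset.measurableSet_biInter _ fun m _ => (measurableSet_occ A m).compl

/-- the tail `P(τ_A > n)` -/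
noncomputable def tail (p : PMF (Fin s)) (A : Fin k → Fin s) (n : ℕ) : ℝ :=
  (iidLaw p).real {ω | (n : ℕ∞) < waiting A ω}

lemma tail_nonneg (p : PMF (Fin s)) (A : Fin k → Fin s) (n : ℕ) : 0 ≤ tail p A n :=
  measureReal_nonneg

lemma tail_anti (p : PMF (Fin s)) (A : Fin k → Fin s) {m n : ℕ} (h : m ≤ n) :
    tail p A n ≤ tail p A m := by
  refine measureReal_mono ?_ (measure_ne_top _ _)
  intro ω hω
  have hω' : (n : ℕ∞) < waiting A ω := hω
  exact lt_of_le_of_lt (Nat.cast_le.2 h) hω'

lemma real_eq_succ (p : PMF (Fin s)) (A : Fin k → Fin s) (n : ℕ) :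
    (iidLaw p).real {ω | waiting A ω = ((n + 1 : ℕ) : ℕ∞)} = tail p A n - tail p A (n + 1) := by
  have h1 : {ω : ℕ → Fin s | waiting A ω = ((n + 1 : ℕ) : ℕ∞)} =
      {ω | (n : ℕ∞) < waiting A ω} \ {ω | ((n + 1 : ℕ) : ℕ∞) < waiting A ω} := by
    ext ω
    simp only [Set.mem_ofPred_eq, Set.mem_sdiff, not_lt]
    constructor
    · intro h
      rw [h]
      exact ⟨by rw [Nat.cast_lt]; omega, le_rfl⟩
    · rintro ⟨h1, h2⟩
      apply le_antisymm h2
      push_cast
      exact Order.add_one_le_of_lt h1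
  rw [h1, measureReal_sdiff]
  · rfl
  · intro ω hω
    have hω' : ((n + 1 : ℕ) : ℕ∞) < waiting A ω := hω
    exact lt_trans (Nat.cast_lt.2 (Nat.lt_succ_self n)) hω'
  · exact measurableSet_lt_waiting A (n + 1)

lemma beats_ge (p : PMF (Fin s)) (A B : Fin k → Fin s) (M : ℕ) :
    (∑ n ∈ Finset.range M, (tail p A n - tail p A (n + 1)) * (tail p B n + tail p B (n + 1))) / 2 ≤
      beats p A B := by
  classical
  have hmeq : ∀ (C : Fin k → Fin s) (n : ℕ), MeasurableSet {ω | waiting C ω = ((n + 1 : ℕ) : ℕ∞)} := by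
    intro C n
    have h1 : {ω : ℕ → Fin s | waiting C ω = ((n + 1 : ℕ) : ℕ∞)} =
        {ω | (n : ℕ∞) < waiting C ω} \ {ω | ((n + 1 : ℕ) : ℕ∞) < waiting C ω} := by
      ext ω
      simp only [Set.mem_ofPred_eq, Set.mem_sdiff, not_lt]
      constructor
      · intro h
        rw [h]
        exact ⟨by rw [Nat.cast_lt]; omega, le_rfl⟩
      · rintro ⟨h1, h2⟩
        apply le_antisymm h2
        push_cast
        exact Order.add_one_le_of_lt h1
    rw [h1]
    exact (measurableSet_lt_waiting C n).diff (measurableSet_lt_waiting C (n + 1))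
  set μ := iidLaw p
  have hlt : ∑ n ∈ Finset.range M, (tail p A n - tail p A (n + 1)) * tail p B (n + 1) ≤
      (μ.prod μ).real {ω | waiting A ω.1 < waiting B ω.2} := by
    have hsub : (⋃ n ∈ Finset.range M, {ω | waiting A ω = ((n + 1 : ℕ) : ℕ∞)} ×ˢ
        {ω | ((n + 1 : ℕ) : ℕ∞) < waiting B ω}) ⊆ {ω | waiting A ω.1 < waiting B ω.2} := by
      intro ω hω
      simp only [Set.mem_iUnion, Set.mem_prod, Set.mem_ofPred_eq] at hω
      obtain ⟨n, -, h1, h2⟩ := hω
      rw [Set.mem_ofPred_eq, h1]
      exact h2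
    have h := measureReal_mono (μ := μ.prod μ) hsub
    rw [measureReal_biUnion_finset] at h
    · refine le_trans (le_of_eq ?_) h
      apply Finset.sum_congr rfl
      intro n _
      rw [measureReal_prod_prod, real_eq_succ]
      rfl
    · intro m _ n _ hmn
      rw [Function.onFun, Set.disjoint_left]
      rintro ω ⟨h1, -⟩ ⟨h2, -⟩
      simp only [Set.mem_ofPred_eq] at h1 h2
      rw [h1, Nat.cast_inj] at h2
      omega
    · intro n _
      exact (hmeq A n).prod (measurableSet_lt_waiting B (n + 1))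
  have heq : ∑ n ∈ Finset.range M, (tail p A n - tail p A (n + 1)) * (tail p B n - tail p B (n + 1)) ≤
      (μ.prod μ).real {ω | waiting A ω.1 = waiting B ω.2} := by
    have hsub : (⋃ n ∈ Finset.range M, {ω | waiting A ω = ((n + 1 : ℕ) : ℕ∞)} ×ˢ
        {ω | waiting B ω = ((n + 1 : ℕ) : ℕ∞)}) ⊆ {ω | waiting A ω.1 = waiting B ω.2} := by
      intro ω hω
      simp only [Set.mem_iUnion, Set.mem_prod, Set.mem_ofPred_eq] at hω
      obtain ⟨n, -, h1, h2⟩ := hω
      rw [Set.mem_ofPred_eq, h1, h2]
    have h := measureReal_mono (μ := μ.prod μ) hsub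
    rw [measureReal_biUnion_finset] at h
    · refine le_trans (le_of_eq ?_) h
      apply Finset.sum_congr rfl
      intro n _
      rw [measureReal_prod_prod, real_eq_succ, real_eq_succ]
    · intro m _ n _ hmn
      rw [Function.onFun, Set.disjoint_left]
      rintro ω ⟨h1, -⟩ ⟨h2, -⟩
      simp only [Set.mem_ofPred_eq] at h1 h2
      rw [h1, Nat.cast_inj] at h2
      omega
    · intro n _
      exact (hmeq A n).prod (hmeq B n)
  unfold beats
  have e : (∑ n ∈ Finset.range M, (tail p A n - tail p A (n + 1)) *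
      (tail p B n + tail p B (n + 1))) / 2 =
      ∑ n ∈ Finset.range M, (tail p A n - tail p A (n + 1)) * tail p B (n + 1) +
      1 / 2 * ∑ n ∈ Finset.range M, (tail p A n - tail p A (n + 1)) *
        (tail p B n - tail p B (n + 1)) := by
    rw [Finset.mul_sum, ← Finset.sum_add_distrib, Finset.sum_div]
    apply Finset.sum_congr rfl
    intro n _
    ring
  rw [e]
  linarith

/-- The race and the Wronskian sum of the tails. -/
lemma beats_gt (p : PMF (Fin s)) (A B : Fin k → Fin s) (hA0 : tail p A 0 = 1) (hB0 : tail p B 0 = 1)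
    (hA : Summable (tail p A)) (hB : Summable (tail p B))
    (h : 0 < ∑' n, tail p A n * tail p B (n + 1) - ∑' n, tail p A (n + 1) * tail p B n) :
    1 / 2 < beats p A B := by
  have hB1 : ∀ n, tail p B n ≤ 1 := fun n => by rw [← hB0]; exact tail_anti p B (Nat.zero_le n)
  have hA1 : ∀ n, tail p A n ≤ 1 := fun n => by rw [← hA0]; exact tail_anti p A (Nat.zero_le n)
  have s1 : Summable (fun n => tail p A n * tail p B (n + 1)) :=
    Summable.of_nonneg_of_le (fun n => mul_nonneg (tail_nonneg _ _ _) (tail_nonneg _ _ _))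
      (fun n => mul_le_of_le_one_right (tail_nonneg _ _ _) (hB1 _)) hA
  have s2 : Summable (fun n => tail p A (n + 1) * tail p B n) :=
    Summable.of_nonneg_of_le (fun n => mul_nonneg (tail_nonneg _ _ _) (tail_nonneg _ _ _))
      (fun n => mul_le_of_le_one_left (tail_nonneg _ _ _) (hA1 _)) hB
  have t1 := s1.hasSum.tendsto_sum_nat
  have t2 := s2.hasSum.tendsto_sum_nat
  have t3 : Tendsto (fun M => tail p A M * tail p B M) atTop (𝓝 0) := by
    have := hA.tendsto_atTop_zero.mul hB.tendsto_atTop_zero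
    simpa using this
  have hlim : Tendsto (fun M => (1 - tail p A M * tail p B M +
      (∑ n ∈ Finset.range M, tail p A n * tail p B (n + 1) -
        ∑ n ∈ Finset.range M, tail p A (n + 1) * tail p B n)) / 2) atTop
      (𝓝 ((1 - 0 + (∑' n, tail p A n * tail p B (n + 1) - ∑' n, tail p A (n + 1) * tail p B n)) / 2)) :=
    ((tendsto_const_nhds.sub t3).add (t1.sub t2)).div_const 2
  have hle : ∀ M, (1 - tail p A M * tail p B M +
      (∑ n ∈ Finset.range M, tail p A n * tail p B (n + 1) -
        ∑ n ∈ Finset.range M, tail p A (n + 1) * tail p B n)) / 2 ≤ beats p A B := by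
    intro M
    refine le_trans (le_of_eq ?_) (beats_ge p A B M)
    congr 1
    induction M with
    | zero => simp [hA0, hB0]
    | succ M ih =>
      rw [Finset.sum_range_succ, Finset.sum_range_succ, Finset.sum_range_succ, ← ih]
      ring
  have := le_of_tendsto' hlim hle
  linarith

end Waiting

section Pattern

variable {s : ℕ}

/-- the word `xyx` -/
def word (x y : Fin s) : Fin 3 → Fin s := ![x, y, x]

/-- no occurrence of `xyx` among the first `n` letters -/
def NO (x y : Fin s) (n : ℕ) (ω : ℕ → Fin s) : Prop :=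
  ∀ m, m + 3 ≤ n → ¬ (ω m = x ∧ ω (m + 1) = y ∧ ω (m + 2) = x)

lemma lt_waiting_word (x y : Fin s) (n : ℕ) (ω : ℕ → Fin s) :
    (n : ℕ∞) < waiting (word x y) ω ↔ NO x y n ω := by
  rw [lt_waiting]
  constructor
  · intro h m hm hocc
    apply h (m + 3) hm
    refine ⟨by omega, ?_⟩
    intro i
    have e : m + 3 - 3 = m := by omega
    rw [e]
    fin_cases i
    · exact hocc.1
    · exact hocc.2.1
    · exact hocc.2.2
  · rintro h m hm ⟨h3, hocc⟩
    apply h (m - 3) (by omega)
    exact ⟨hocc 0, hocc 1, hocc 2⟩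

lemma NO_cons (x y c : Fin s) (n : ℕ) (ω : ℕ → Fin s) :
    NO x y (n + 1) (cons (c, ω)) ↔ NO x y n ω ∧ (2 ≤ n → ¬ (c = x ∧ ω 0 = y ∧ ω 1 = x)) := by
  constructor
  · intro h
    constructor
    · intro m hm hocc
      exact h (m + 1) (by omega) hocc
    · intro hn hocc
      exact h 0 (by omega) hocc
  · rintro ⟨h1, h2⟩ m hm hocc
    cases m with
    | zero => exact h2 (by omega) hocc
    | succ m => exact h1 m (by omega) hocc

lemma measurableSet_NO (x y : Fin s) (n : ℕ) : MeasurableSet {ω | NO x y n ω} := by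
  have : {ω | NO x y n ω} = {ω | (n : ℕ∞) < waiting (word x y) ω} := by
    ext ω; exact (lt_waiting_word x y n ω).symm
  rw [this]
  exact measurableSet_lt_waiting _ _

/-- no occurrence in `x ω` -/
def E1 (x y : Fin s) (n : ℕ) : Set (ℕ → Fin s) :=
  {ω | NO x y n ω} ∩ {ω | ¬ (2 ≤ n ∧ ω 0 = y ∧ ω 1 = x)}

/-- no occurrence in `x y ω` -/
def E2 (x y : Fin s) (n : ℕ) : Set (ℕ → Fin s) :=
  {ω | NO x y n ω} ∩ {ω | ¬ (1 ≤ n ∧ ω 0 = x)}

lemma measurableSet_coord (i : ℕ) (c : Fin s) : MeasurableSet {ω : ℕ → Fin s | ω i = c} := by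
  have : {ω : ℕ → Fin s | ω i = c} = (fun ω : ℕ → Fin s => ω i) ⁻¹' {c} := by ext; simp
  rw [this]
  exact (measurable_pi_apply i) (measurableSet_singleton c)

lemma measurableSet_E1 (x y : Fin s) (n : ℕ) : MeasurableSet (E1 x y n) := by
  apply (measurableSet_NO x y n).inter
  exact ((MeasurableSet.const _).inter
    ((measurableSet_coord 0 y).inter (measurableSet_coord 1 x))).compl

lemma measurableSet_E2 (x y : Fin s) (n : ℕ) : MeasurableSet (E2 x y n) := by
  apply (measurableSet_NO x y n).inter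
  exact ((MeasurableSet.const _).inter (measurableSet_coord 0 x)).compl

variable (p : PMF (Fin s))

noncomputable def h0 (x y : Fin s) (n : ℕ) : ℝ := (iidLaw p).real {ω | NO x y n ω}
noncomputable def h1 (x y : Fin s) (n : ℕ) : ℝ := (iidLaw p).real (E1 x y n)
noncomputable def h2 (x y : Fin s) (n : ℕ) : ℝ := (iidLaw p).real (E2 x y n)

lemma sum_p : ∑ c : Fin s, (p c).toReal = 1 := by
  have h := p.tsum_coe
  rw [tsum_fintype] at h
  rw [← ENNReal.toReal_sum (fun c _ => p.apply_ne_top c), h, ENNReal.toReal_one]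

lemma sum_two (x : Fin s) (a b : ℝ) :
    ∑ c : Fin s, (p c).toReal * (if c = x then a else b) =
      (p x).toReal * a + (1 - (p x).toReal) * b := by
  have : ∀ c : Fin s, (p c).toReal * (if c = x then a else b) =
      (p c).toReal * b + if c = x then (p c).toReal * (a - b) else 0 := by
    intro c; split_ifs <;> ring
  simp_rw [this]
  rw [Finset.sum_add_distrib, ← Finset.sum_mul, sum_p, Finset.sum_ite_eq' Finset.univ x,
    if_pos (Finset.mem_univ _)]
  ring

lemma sum_three (x y : Fin s) (hxy : x ≠ y) (a b d : ℝ) :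
    ∑ c : Fin s, (p c).toReal * (if c = x then a else if c = y then b else d) =
      (p x).toReal * a + (p y).toReal * b + (1 - (p x).toReal - (p y).toReal) * d := by
  have : ∀ c : Fin s, (p c).toReal * (if c = x then a else if c = y then b else d) =
      (p c).toReal * d + (if c = x then (p c).toReal * (a - d) else 0) +
        (if c = y then (p c).toReal * (b - d) else 0) := by
    intro c
    split_ifs with h1 h2
    · exact absurd (h1.symm.trans h2) hxy
    · ring
    · ring
    · ring
  simp_rw [this]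
  rw [Finset.sum_add_distrib, Finset.sum_add_distrib, ← Finset.sum_mul, sum_p,
    Finset.sum_ite_eq' Finset.univ x, Finset.sum_ite_eq' Finset.univ y,
    if_pos (Finset.mem_univ _), if_pos (Finset.mem_univ _)]
  ring

lemma h0_succ (x y : Fin s) (n : ℕ) :
    h0 p x y (n + 1) = (p x).toReal * h1 p x y n + (1 - (p x).toReal) * h0 p x y n := by
  unfold h0
  rw [first_step p _ (measurableSet_NO x y (n + 1)), ← sum_two p x]
  apply Finset.sum_congr rfl
  intro c _
  congr 1
  split_ifs with hc
  · subst hc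
    unfold h1 E1
    congr 1
    ext ω
    have := NO_cons c y c n ω
    constructor
    · intro h
      have h' := this.1 h
      exact ⟨h'.1, fun h'' => h'.2 h''.1 ⟨rfl, h''.2⟩⟩
    · intro h
      exact this.2 ⟨h.1, fun h2 h3 => h.2 ⟨h2, h3.2⟩⟩
  · congr 1
    ext ω
    have := NO_cons x y c n ω
    constructor
    · intro h
      exact (this.1 h).1
    · intro h
      exact this.2 ⟨h, fun _ h3 => hc h3.1⟩

lemma h1_succ (x y : Fin s) (hxy : x ≠ y) (n : ℕ) :
    h1 p x y (n + 1) = (p x).toReal * h1 p x y n + (p y).toReal * h2 p x y n +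
      (1 - (p x).toReal - (p y).toReal) * h0 p x y n := by
  conv_lhs => unfold h1
  rw [first_step p _ (measurableSet_E1 x y (n + 1)), ← sum_three p x y hxy]
  apply Finset.sum_congr rfl
  intro c _
  congr 1
  split_ifs with hcx hcy
  · subst hcx
    unfold h1
    congr 1
    ext ω
    have := NO_cons c y c n ω
    constructor
    · intro h
      have h' := this.1 h.1
      exact ⟨h'.1, fun h'' => h'.2 h''.1 ⟨rfl, h''.2⟩⟩
    · intro h
      refine ⟨this.2 ⟨h.1, fun h2 h3 => h.2 ⟨h2, h3.2⟩⟩, ?_⟩
      intro h3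
      exact hxy h3.2.1
  · subst hcy
    unfold h2
    congr 1
    ext ω
    have := NO_cons x c c n ω
    constructor
    · intro h
      refine ⟨(this.1 h.1).1, ?_⟩
      intro h3
      exact h.2 ⟨by have := h3.1; omega, rfl, h3.2⟩
    · intro h
      refine ⟨this.2 ⟨h.1, fun _ h3 => hcx h3.1⟩, ?_⟩
      intro h3
      exact h.2 ⟨by have := h3.1; omega, h3.2.2⟩
  · unfold h0
    congr 1
    ext ω
    have := NO_cons x y c n ω
    constructor
    · intro h
      exact (this.1 h.1).1
    · intro h
      refine ⟨this.2 ⟨h, fun _ h3 => hcx h3.1⟩, ?_⟩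
      intro h3
      exact hcy h3.2.1

lemma h2_succ (x y : Fin s) (hxy : x ≠ y) (n : ℕ) :
    h2 p x y (n + 1) = (1 - (p x).toReal) * h0 p x y n := by
  conv_lhs => unfold h2
  have e : (1 - (p x).toReal) * h0 p x y n = (p x).toReal * 0 + (1 - (p x).toReal) * h0 p x y n := by
    ring
  rw [first_step p _ (measurableSet_E2 x y (n + 1)), e, ← sum_two p x]
  apply Finset.sum_congr rfl
  intro c _
  congr 1
  split_ifs with hc
  · subst hc
    have : {ω | cons (c, ω) ∈ E2 c y (n + 1)} = ∅ := by
      ext ω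
      constructor
      · intro h
        exact h.2 ⟨by omega, rfl⟩
      · intro h
        exact h.elim
    rw [this, measureReal_empty]
  · unfold h0
    congr 1
    ext ω
    have := NO_cons x y c n ω
    constructor
    · intro h
      exact (this.1 h.1).1
    · intro h
      refine ⟨this.2 ⟨h, fun _ h3 => hc h3.1⟩, ?_⟩
      intro h3
      exact hc h3.2

lemma h1_le (x y : Fin s) (n : ℕ) : h1 p x y n ≤ h0 p x y n :=
  measureReal_mono Set.inter_subset_left

lemma h0_zero (x y : Fin s) : h0 p x y 0 = 1 := by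
  unfold h0
  have : {ω | NO x y 0 ω} = Set.univ := by
    ext ω; simp [NO]
  rw [this, probReal_univ]

lemma h1_zero (x y : Fin s) : h1 p x y 0 = 1 := by
  unfold h1 E1
  have : ({ω | NO x y 0 ω} ∩ {ω | ¬ (2 ≤ 0 ∧ ω 0 = y ∧ ω 1 = x)} : Set (ℕ → Fin s)) = Set.univ := by
    ext ω; simp [NO]
  rw [this, probReal_univ]

lemma h1_one (x y : Fin s) : h1 p x y 1 = 1 := by
  unfold h1 E1
  have : ({ω | NO x y 1 ω} ∩ {ω | ¬ (2 ≤ 1 ∧ ω 0 = y ∧ ω 1 = x)} : Set (ℕ → Fin s)) = Set.univ := by
    ext ω; simp [NO]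
  rw [this, probReal_univ]

lemma tail_word (x y : Fin s) (n : ℕ) : tail p (word x y) n = h0 p x y n := by
  unfold tail h0
  congr 1
  ext ω
  exact lt_waiting_word x y n ω

lemma tail_zero (x y : Fin s) : tail p (word x y) 0 = 1 := by rw [tail_word, h0_zero]

lemma tail_one (x y : Fin s) : tail p (word x y) 1 = 1 := by
  rw [tail_word, h0_succ, h1_zero, h0_zero]; ring

lemma tail_two (x y : Fin s) : tail p (word x y) 2 = 1 := by
  rw [tail_word, h0_succ, h1_one, ← tail_word, tail_one]; ring

/-- the recursion of the tails -/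
lemma tail_rec (x y : Fin s) (hxy : x ≠ y) (n : ℕ) :
    tail p (word x y) (n + 3) = tail p (word x y) (n + 2) -
      (p x).toReal * (p y).toReal * tail p (word x y) (n + 1) +
      (p x).toReal * (p y).toReal * (1 - (p x).toReal) * tail p (word x y) n := by
  simp only [tail_word]
  have e1 := h0_succ p x y (n + 2)
  have e2 := h1_succ p x y hxy (n + 1)
  have e3 := h2_succ p x y hxy n
  have e4 := h0_succ p x y (n + 1)
  rw [e1, e2, e3]
  linear_combination (-(p x).toReal) * e4

lemma tail_summable (x y : Fin s) (hxy : x ≠ y) (hx : 0 < (p x).toReal) (hy : 0 < (p y).toReal) :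
    Summable (tail p (word x y)) := by
  set a := tail p (word x y) with ha
  have hx1 : (p x).toReal ≤ 1 := by
    rw [← sum_p p]
    exact Finset.single_le_sum (f := fun c => (p c).toReal) (fun c _ => ENNReal.toReal_nonneg)
      (Finset.mem_univ x)
  have hy1 : (p y).toReal ≤ 1 := by
    rw [← sum_p p]
    exact Finset.single_le_sum (f := fun c => (p c).toReal) (fun c _ => ENNReal.toReal_nonneg)
      (Finset.mem_univ y)
  set q := 1 - (p x).toReal * (p y).toReal * (p x).toReal with hq
  have hq1 : q < 1 := by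
    have : 0 < (p x).toReal * (p y).toReal * (p x).toReal := by positivity
    rw [hq]; linarith
  have hq0 : 0 ≤ q := by
    have h1 : (p x).toReal * (p y).toReal ≤ 1 := mul_le_one₀ hx1 hy.le hy1
    have h2 : (p x).toReal * (p y).toReal * (p x).toReal ≤ 1 := mul_le_one₀ h1 hx.le hx1
    rw [hq]; linarith
  -- `a (n + 3) ≤ q * a n`
  have hstep : ∀ n, a (n + 3) ≤ q * a n := by
    intro n
    have e1 := h0_succ p x y (n + 2)
    have e2 := h1_succ p x y hxy (n + 1)
    have e3 := h2_succ p x y hxy n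
    have l1 := h1_le p x y (n + 1)
    have m1 : h0 p x y (n + 2) ≤ h0 p x y n := by
      rw [← tail_word, ← tail_word]; exact tail_anti p _ (by omega)
    have m2 : h0 p x y (n + 1) ≤ h0 p x y n := by
      rw [← tail_word, ← tail_word]; exact tail_anti p _ (by omega)
    simp only [ha, tail_word]
    rw [e1, e2, e3]
    have k1 : (p x).toReal * h1 p x y (n + 1) ≤ (p x).toReal * h0 p x y (n + 1) :=
      mul_le_mul_of_nonneg_left l1 hx.le
    have k2 : (1 - (p y).toReal) * h0 p x y (n + 1) ≤ (1 - (p y).toReal) * h0 p x y n :=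
      mul_le_mul_of_nonneg_left m2 (by linarith)
    have k3 : (1 - (p x).toReal) * h0 p x y (n + 2) ≤ (1 - (p x).toReal) * h0 p x y n :=
      mul_le_mul_of_nonneg_left m1 (by linarith)
    have k4 : (p x).toReal * ((p x).toReal * h1 p x y (n + 1) +
        (p y).toReal * ((1 - (p x).toReal) * h0 p x y n) +
        (1 - (p x).toReal - (p y).toReal) * h0 p x y (n + 1)) ≤
        (p x).toReal * ((p y).toReal * ((1 - (p x).toReal) * h0 p x y n) +
          (1 - (p y).toReal) * h0 p x y n) := by
      apply mul_le_mul_of_nonneg_left _ hx.le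
      linarith
    rw [hq]
    nlinarith
  have hpow : ∀ m r, r < 3 → a (3 * m + r) ≤ q ^ m := by
    intro m
    induction m with
    | zero =>
      intro r hr
      rw [pow_zero, ← tail_zero p x y]
      exact tail_anti p _ (Nat.zero_le _)
    | succ m ih =>
      intro r hr
      have h1 := hstep (3 * m + r)
      have h2 : 3 * (m + 1) + r = 3 * m + r + 3 := by ring
      rw [h2, pow_succ']
      exact h1.trans (mul_le_mul_of_nonneg_left (ih r hr) hq0)
  -- compare
  have hsum3 : ∀ r, r < 3 → Summable (fun m => a (3 * m + r)) := by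
    intro r hr
    exact Summable.of_nonneg_of_le (fun m => tail_nonneg _ _ _) (fun m => hpow m r hr)
      (summable_geometric_of_lt_one hq0 hq1)
  -- bound partial sums
  apply summable_of_sum_range_le (c := ∑' m, (a (3 * m) + a (3 * m + 1) + a (3 * m + 2)))
    (fun n => tail_nonneg _ _ _)
  intro N
  have hs : Summable (fun m => a (3 * m) + a (3 * m + 1) + a (3 * m + 2)) :=
    (((hsum3 0 (by norm_num)).congr (fun m => by simp)).add (hsum3 1 (by norm_num))).add
      (hsum3 2 (by norm_num))
  have h1 : ∑ n ∈ Finset.range N, a n ≤ ∑ n ∈ Finset.range (3 * N), a n :=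
    Finset.sum_le_sum_of_subset_of_nonneg (Finset.range_mono (by omega))
      (fun i _ _ => tail_nonneg _ _ _)
  have h2 : ∀ M, ∑ n ∈ Finset.range (3 * M), a n =
      ∑ m ∈ Finset.range M, (a (3 * m) + a (3 * m + 1) + a (3 * m + 2)) := by
    intro M
    induction M with
    | zero => simp
    | succ M ih =>
      have e : 3 * (M + 1) = 3 * M + 1 + 1 + 1 := by ring
      rw [e, Finset.sum_range_succ, Finset.sum_range_succ, Finset.sum_range_succ, ih,
        Finset.sum_range_succ]
      ring
  rw [h2] at h1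
  refine h1.trans ?_
  exact hs.sum_le_tsum _ (fun m _ => by
    have := tail_nonneg p (word x y) (3 * m)
    have := tail_nonneg p (word x y) (3 * m + 1)
    have := tail_nonneg p (word x y) (3 * m + 2)
    positivity)

end Pattern

section Algebra

/-- numerator of the advantage (up to a positive factor) -/
def Nf {R : Type*} [Add R] [Sub R] [Mul R] (D u v U V : R) : R :=
  let DD := D * D
  let a11 := u * V - DD
  let a12 := DD - v * V
  let a13 := D * (U - V)
  let r1 := D * U + u * V
  let a21 := U * v - DD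
  let a22 := D * (u - v)
  let a23 := DD - v * V
  let r2 := D * u + U * v
  let a31 := DD - v * V - u * (U - V)
  let a32 := v * (U - V)
  let a33 := u * V + D * (U - V) - DD
  let r3 := DD + D * U - u * (U - V)
  (a23 * a31 - a21 * a33 - (a21 * a32 - a22 * a31)) * r1 +
    (a11 * a33 - a13 * a31 - (a12 * a31 - a11 * a32)) * r2 +
    (a13 * a21 - a11 * a23 - (a11 * a22 - a12 * a21)) * r3

/-- denominator -/
def Df {R : Type*} [Add R] [Sub R] [Mul R] (D u v U V : R) : R :=
  let DD := D * D
  let a11 := u * V - DD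
  let a12 := DD - v * V
  let a13 := D * (U - V)
  let a21 := U * v - DD
  let a22 := D * (u - v)
  let a23 := DD - v * V
  let a31 := DD - v * V - u * (U - V)
  let a32 := v * (U - V)
  let a33 := u * V + D * (U - V) - DD
  (a23 * a31 - a21 * a33) * a12 + (a11 * a33 - a13 * a31) * a22 + (a13 * a21 - a11 * a23) * a32

lemma wronskian (a b : ℕ → ℝ) (u v U V : ℝ) (ha : Summable a)
    (ha0 : ∀ n, 0 ≤ a n) (hb0 : ∀ n, 0 ≤ b n) (hb1 : ∀ n, b n ≤ 1)
    (A0 : a 0 = 1) (A1 : a 1 = 1) (A2 : a 2 = 1) (B0 : b 0 = 1) (B1 : b 1 = 1) (B2 : b 2 = 1)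
    (ra : ∀ n, a (n + 3) = a (n + 2) - u * a (n + 1) + v * a n)
    (rb : ∀ n, b (n + 3) = b (n + 2) - U * b (n + 1) + V * b n) :
    Df 1 u v U V * (∑' n, a n * b (n + 1) - ∑' n, a (n + 1) * b n) = Nf 1 u v U V := by
  set S : ℕ → ℕ → ℝ := fun i j => ∑' n, a (n + i) * b (n + j) with hS
  have hsum : ∀ i j, Summable (fun n => a (n + i) * b (n + j)) := by
    intro i j
    exact Summable.of_nonneg_of_le (fun n => mul_nonneg (ha0 _) (hb0 _))
      (fun n => mul_le_of_le_one_right (ha0 _) (hb1 _)) ((summable_nat_add_iff i).2 ha)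
  have shift : ∀ i j, S i j = a i * b j + S (i + 1) (j + 1) := by
    intro i j
    simp only [hS]
    rw [(hsum i j).tsum_eq_zero_add]
    simp only [zero_add]
    congr 1
    apply tsum_congr
    intro n
    have e1 : n + 1 + i = n + (i + 1) := by ring
    have e2 : n + 1 + j = n + (j + 1) := by ring
    rw [e1, e2]
  have recb : ∀ i j, S i (j + 3) = S i (j + 2) - U * S i (j + 1) + V * S i j := by
    intro i j
    simp only [hS]
    rw [← tsum_mul_left, ← tsum_mul_left, ← (hsum i (j + 2)).tsum_sub ((hsum i (j + 1)).mul_left U),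
      ← ((hsum i (j + 2)).sub ((hsum i (j + 1)).mul_left U)).tsum_add ((hsum i j).mul_left V)]
    apply tsum_congr
    intro n
    have := rb (n + j)
    have e3 : n + (j + 3) = n + j + 3 := by ring
    have e2 : n + (j + 2) = n + j + 2 := by ring
    have e1 : n + (j + 1) = n + j + 1 := by ring
    rw [e3, e2, e1, this]; ring
  have reca : ∀ i j, S (i + 3) j = S (i + 2) j - u * S (i + 1) j + v * S i j := by
    intro i j
    simp only [hS]
    rw [← tsum_mul_left, ← tsum_mul_left, ← (hsum (i + 2) j).tsum_sub ((hsum (i + 1) j).mul_left u),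
      ← ((hsum (i + 2) j).sub ((hsum (i + 1) j).mul_left u)).tsum_add ((hsum i j).mul_left v)]
    apply tsum_congr
    intro n
    have := ra (n + i)
    have e3 : n + (i + 3) = n + i + 3 := by ring
    have e2 : n + (i + 2) = n + i + 2 := by ring
    have e1 : n + (i + 1) = n + i + 1 := by ring
    rw [e3, e2, e1, this]; ring
  have s00 := shift 0 0
  have s01 := shift 0 1
  have s02 := shift 0 2
  have s10 := shift 1 0
  have s11 := shift 1 1
  have s12 := shift 1 2
  have s20 := shift 2 0
  have s21 := shift 2 1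
  have s22 := shift 2 2
  simp only [A0, A1, A2, B0, B1, B2, mul_one, zero_add, Nat.reduceAdd] at s00 s01 s02 s10 s11 s12 s20 s21 s22
  have b10 := recb 1 0
  have b20 := recb 2 0
  have b30 := recb 3 0
  have a01 := reca 0 1
  have a02 := reca 0 2
  have a00 := reca 0 0
  simp only [zero_add] at b10 b20 b30 a01 a02 a00
  have hd1 : ∑' n, a n * b (n + 1) = S 0 1 := rfl
  have he1 : ∑' n, a (n + 1) * b n = S 1 0 := rfl
  rw [hd1, he1]
  -- the three equations
  have E1 : (u * V - 1) * S 0 0 + (1 - v * V) * S 0 1 + (U - V) * S 1 0 = U + u * V := by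
    linear_combination s01 + s12 + b20 - s11 - s00 + U * s10 + V * s20 + V * a01 - V * s10 +
      u * V * s00
  have E2 : (U * v - 1) * S 0 0 + (u - v) * S 0 1 + (1 - v * V) * S 1 0 = u + U * v := by
    linear_combination s10 + s21 + a02 - s11 - s00 + u * s01 + v * s02 + v * b10 - v * s01 +
      U * v * s00
  have E3 : (1 - v * V - u * (U - V)) * S 0 0 + v * (U - V) * S 0 1 +
      (u * V + (U - V) - 1) * S 1 0 = 1 + U - u * (U - V) := by
    linear_combination s00 + s11 + s22 + b30 - s10 - s21 - U * a01 + U * s10 - u * U * s00 +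
      V * a00 + V * s20 + V * a01 - V * s10 + u * V * s00
  unfold Df Nf
  simp only [one_mul]
  linear_combination (((1 - v * V) * (1 - v * V - u * (U - V)) - (U * v - 1) * (u * V + (U - V) - 1)) -
      ((U * v - 1) * (v * (U - V)) - (u - v) * (1 - v * V - u * (U - V)))) * E1 +
    (((u * V - 1) * (u * V + (U - V) - 1) - (U - V) * (1 - v * V - u * (U - V))) -
      ((1 - v * V) * (1 - v * V - u * (U - V)) - (u * V - 1) * (v * (U - V)))) * E2 +
    (((U - V) * (U * v - 1) - (u * V - 1) * (1 - v * V)) -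
      ((u * V - 1) * (u - v) - (1 - v * V) * (U * v - 1))) * E3

end Algebra

section Lists

/-- integer polynomials as lists of coefficients -/
structure ZP where
  l : List ℤ

def ladd : List ℤ → List ℤ → List ℤ
  | [], b => b
  | a, [] => a
  | x :: a, y :: b => (x + y) :: ladd a b

def lsmul (c : ℤ) (a : List ℤ) : List ℤ := a.map (c * ·)

def lmul : List ℤ → List ℤ → List ℤ
  | [], _ => []
  | x :: a, b => ladd (lsmul x b) (0 :: lmul a b)

instance : Add ZP := ⟨fun a b => ⟨ladd a.l b.l⟩⟩
instance : Mul ZP := ⟨fun a b => ⟨lmul a.l b.l⟩⟩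
instance : Sub ZP := ⟨fun a b => ⟨ladd a.l (lsmul (-1) b.l)⟩⟩

def lev : List ℤ → ℝ → ℝ
  | [], _ => 0
  | c :: l, t => c + t * lev l t

def ev (a : ZP) (t : ℝ) : ℝ := lev a.l t

lemma lev_ladd (a b : List ℤ) (t : ℝ) : lev (ladd a b) t = lev a t + lev b t := by
  induction a generalizing b with
  | nil => simp [ladd, lev]
  | cons x a ih =>
    cases b with
    | nil => simp [ladd, lev]
    | cons y b =>
      simp only [ladd, lev, ih]
      push_cast
      ring

lemma lev_lsmul (c : ℤ) (a : List ℤ) (t : ℝ) : lev (lsmul c a) t = c * lev a t := by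
  unfold lsmul
  induction a with
  | nil => simp [lev]
  | cons x a ih =>
    simp only [List.map_cons, lev, ih]
    push_cast
    ring

lemma lev_lmul (a b : List ℤ) (t : ℝ) : lev (lmul a b) t = lev a t * lev b t := by
  induction a with
  | nil => simp [lmul, lev]
  | cons x a ih =>
    simp only [lmul, lev_ladd, lev_lsmul, lev, ih]
    push_cast
    ring

lemma ev_add (a b : ZP) (t : ℝ) : ev (a + b) t = ev a t + ev b t := lev_ladd _ _ _
lemma ev_mul (a b : ZP) (t : ℝ) : ev (a * b) t = ev a t * ev b t := lev_lmul _ _ _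
lemma ev_sub (a b : ZP) (t : ℝ) : ev (a - b) t = ev a t - ev b t := by
  have : ev (a - b) t = lev (ladd a.l (lsmul (-1) b.l)) t := rfl
  rw [this, lev_ladd, lev_lsmul]
  unfold ev
  push_cast
  ring

/-- the first nonzero coefficient exists and is positive -/
def lead : List ℤ → Bool
  | [] => false
  | c :: l => if c = 0 then lead l else decide (0 < c)

lemma continuous_lev (l : List ℤ) : Continuous (lev l) := by
  induction l with
  | nil => exact continuous_const
  | cons c l ih => exact continuous_const.add (continuous_id.mul ih)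

lemma eventually_pos (l : List ℤ) (h : lead l = true) : ∀ᶠ t in 𝓝[>] (0 : ℝ), 0 < lev l t := by
  induction l with
  | nil => simp [lead] at h
  | cons c l ih =>
    by_cases hc : c = 0
    · rw [lead, if_pos hc] at h
      filter_upwards [ih h, self_mem_nhdsWithin] with t ht ht0
      rw [lev, hc]
      have ht0' : (0 : ℝ) < t := ht0
      push_cast
      rw [zero_add]
      positivity
    · rw [lead, if_neg hc, decide_eq_true_eq] at h
      have h0 : 0 < lev (c :: l) 0 := by
        rw [lev, zero_mul, add_zero]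
        exact_mod_cast h
      exact ((continuous_lev (c :: l)).continuousAt.tendsto.mono_left
        nhdsWithin_le_nhds).eventually_const_lt h0

lemma ev_Nf (D u v U V : ZP) (t : ℝ) :
    ev (Nf D u v U V) t = Nf (ev D t) (ev u t) (ev v t) (ev U t) (ev V t) := by
  simp only [Nf, ev_add, ev_mul, ev_sub]

lemma ev_Df (D u v U V : ZP) (t : ℝ) :
    ev (Df D u v U V) t = Df (ev D t) (ev u t) (ev v t) (ev U t) (ev V t) := by
  simp only [Df, ev_add, ev_mul, ev_sub]

lemma Nf_scale (D u v U V : ℝ) (hD : D ≠ 0) :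
    Nf 1 (u / D) (v / D) (U / D) (V / D) = Nf D u v U V / D ^ 6 := by
  unfold Nf
  field_simp

lemma Df_scale (D u v U V : ℝ) (hD : D ≠ 0) :
    Df 1 (u / D) (v / D) (U / D) (V / D) = Df D u v U V / D ^ 6 := by
  unfold Df
  field_simp

lemma race {s : ℕ} (p : PMF (Fin s)) (x y X Y : Fin s) (hxy : x ≠ y) (hXY : X ≠ Y)
    (x' y' X' Y' : ℝ) (hx : (p x).toReal = x' / 7) (hy : (p y).toReal = y' / 7)
    (hX : (p X).toReal = X' / 7) (hY : (p Y).toReal = Y' / 7)
    (x0 : 0 < x') (y0 : 0 < y') (X0 : 0 < X') (Y0 : 0 < Y')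
    (hN : 0 < Nf 343 (7 * x' * y') (x' * y' * (7 - x')) (7 * X' * Y') (X' * Y' * (7 - X')))
    (hD : 0 < Df 343 (7 * x' * y') (x' * y' * (7 - x')) (7 * X' * Y') (X' * Y' * (7 - X'))) :
    1 / 2 < beats p (word x y) (word X Y) := by
  have sA := tail_summable p x y hxy (by rw [hx]; positivity) (by rw [hy]; positivity)
  have sB := tail_summable p X Y hXY (by rw [hX]; positivity) (by rw [hY]; positivity)
  have hB1 : ∀ n, tail p (word X Y) n ≤ 1 := fun n => by
    rw [← tail_zero p X Y]; exact tail_anti p _ (Nat.zero_le n)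
  have hw := wronskian (tail p (word x y)) (tail p (word X Y))
    ((7 * x' * y') / 343) ((x' * y' * (7 - x')) / 343) ((7 * X' * Y') / 343)
    ((X' * Y' * (7 - X')) / 343) sA (fun n => tail_nonneg _ _ _) (fun n => tail_nonneg _ _ _) hB1
    (tail_zero p x y) (tail_one p x y) (tail_two p x y) (tail_zero p X Y) (tail_one p X Y)
    (tail_two p X Y) (by
      intro n
      rw [tail_rec p x y hxy n, hx, hy]; ring) (by
      intro n
      rw [tail_rec p X Y hXY n, hX, hY]; ring)
  rw [Nf_scale _ _ _ _ _ (by norm_num), Df_scale _ _ _ _ _ (by norm_num)] at hw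
  apply beats_gt p _ _ (tail_zero p x y) (tail_zero p X Y) sA sB
  have h1 : 0 < Nf 343 (7 * x' * y') (x' * y' * (7 - x')) (7 * X' * Y') (X' * Y' * (7 - X')) /
    (343 : ℝ) ^ 6 := by positivity
  have h2 : 0 < Df 343 (7 * x' * y') (x' * y' * (7 - x')) (7 * X' * Y') (X' * Y' * (7 - X')) /
    (343 : ℝ) ^ 6 := by positivity
  rw [← hw] at h1
  exact pos_of_mul_pos_right h1 h2.le

/-! ### The explicit family -/

def K : ℤ := 11386691527732801
def b1 : ℤ := -23004430772349720
def b2 : ℤ := 396916222071201544518448671503692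
def b3 : ℤ := -6087630516268290252705052396129394714737222387029

def xB : ZP := ⟨[1, K]⟩
def yB : ZP := ⟨[1, b1, b2, b3]⟩
def xC : ZP := ⟨[1, -K]⟩
def yC : ZP := ⟨[1, -b1, b2, -b3]⟩
def c7 : ZP := ⟨[7]⟩
def c343 : ZP := ⟨[343]⟩
def uA : ZP := ⟨[7]⟩
def vA : ZP := ⟨[6]⟩
def uB : ZP := c7 * xB * yB
def vB : ZP := xB * yB * (c7 - xB)
def uC : ZP := c7 * xC * yC
def vC : ZP := xC * yC * (c7 - xC)

lemma leadAB : lead (Nf c343 uA vA uB vB).l = true ∧ lead (Df c343 uA vA uB vB).l = true := by
  decide +kernel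

lemma leadBC : lead (Nf c343 uB vB uC vC).l = true ∧ lead (Df c343 uB vB uC vC).l = true := by
  decide +kernel

lemma leadCA : lead (Nf c343 uC vC uA vA).l = true ∧ lead (Df c343 uC vC uA vA).l = true := by
  decide +kernel


/-- the letter probabilities, multiplied by 7 -/
noncomputable def q (t : ℝ) : Fin 7 → ℝ :=
  ![1, 1, ev xB t, ev yB t, ev xC t, ev yC t, 3 - ev yB t - ev yC t]

lemma continuous_q : Continuous q := by
  have h : ∀ a : ZP, Continuous (ev a) := fun a => continuous_lev a.l
  apply continuous_pi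
  intro i
  fin_cases i
  · exact continuous_const
  · exact continuous_const
  · exact h xB
  · exact h yB
  · exact h xC
  · exact h yC
  · exact (continuous_const.sub (h yB)).sub (h yC)

lemma q_zero (i : Fin 7) : q 0 i = 1 := by
  fin_cases i <;> (simp [q, ev, lev, xB, yB, xC, yC]; try norm_num)

lemma sum_q (t : ℝ) : ∑ i, q t i = 7 := by
  rw [Fin.sum_univ_seven]
  simp only [q, ev, xB, yB, xC, yC, lev, K, Matrix.cons_val]
  push_cast
  ring

lemma sum_q' (t : ℝ) (h : ∀ i, 0 < q t i) : ∑ i, ENNReal.ofReal (q t i / 7) = 1 := by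
  rw [← ENNReal.ofReal_sum_of_nonneg (fun i _ => by have := h i; positivity), ← Finset.sum_div,
    sum_q]
  norm_num

/-- the probability vector -/
noncomputable def pv (t : ℝ) (h : ∀ i, 0 < q t i) : PMF (Fin 7) :=
  PMF.ofFintype (fun i => ENNReal.ofReal (q t i / 7)) (sum_q' t h)

lemma pv_apply (t : ℝ) (h : ∀ i, 0 < q t i) (i : Fin 7) : (pv t h i).toReal = q t i / 7 := by
  unfold pv
  rw [PMF.ofFintype_apply, ENNReal.toReal_ofReal (by have := h i; positivity)]

/-- **Negative answer to Q1 (`s = 7`, `k = 3`).** There are probability vectors arbitrarily close to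
the uniform one with three words of length 3 that beat each other cyclically. -/
theorem result : ∀ ε > 0, ∃ p : PMF (Fin 7), (∀ i, |(p i).toReal - 1 / 7| < ε) ∧
    ∃ A B C : Fin 3 → Fin 7, 1 / 2 < beats p A B ∧ 1 / 2 < beats p B C ∧ 1 / 2 < beats p C A := by
  intro ε hε
  have hcont : ∀ i, Continuous (fun t => q t i) := fun i => (continuous_apply i).comp continuous_q
  have e1 : ∀ᶠ t in 𝓝[>] (0 : ℝ), ∀ i, 0 < q t i := by
    rw [eventually_all]
    intro i
    have : (0 : ℝ) < q 0 i := by rw [q_zero]; norm_num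
    exact ((hcont i).continuousAt.tendsto.mono_left nhdsWithin_le_nhds).eventually_const_lt this
  have e2 : ∀ᶠ t in 𝓝[>] (0 : ℝ), ∀ i, |q t i / 7 - 1 / 7| < ε := by
    rw [eventually_all]
    intro i
    have hc : Continuous (fun t => |q t i / 7 - 1 / 7|) :=
      (((hcont i).div_const 7).sub continuous_const).abs
    have : |q 0 i / 7 - 1 / 7| < ε := by rw [q_zero]; simpa using hε
    exact (hc.continuousAt.tendsto.mono_left nhdsWithin_le_nhds).eventually_lt_const this
  have f1 := eventually_pos _ leadAB.1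
  have f2 := eventually_pos _ leadAB.2
  have f3 := eventually_pos _ leadBC.1
  have f4 := eventually_pos _ leadBC.2
  have f5 := eventually_pos _ leadCA.1
  have f6 := eventually_pos _ leadCA.2
  obtain ⟨t, ⟨⟨h1, h2⟩, ⟨g1, g2⟩⟩, ⟨g3, g4⟩, ⟨g5, g6⟩⟩ :=
    (((e1.and e2).and (f1.and f2)).and ((f3.and f4).and (f5.and f6))).exists
  have k1 : 0 < ev (Nf c343 uA vA uB vB) t := g1
  have k2 : 0 < ev (Df c343 uA vA uB vB) t := g2
  have k3 : 0 < ev (Nf c343 uB vB uC vC) t := g3
  have k4 : 0 < ev (Df c343 uB vB uC vC) t := g4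
  have k5 : 0 < ev (Nf c343 uC vC uA vA) t := g5
  have k6 : 0 < ev (Df c343 uC vC uA vA) t := g6
  rw [ev_Nf] at k1 k3 k5
  rw [ev_Df] at k2 k4 k6
  have v343 : ev c343 t = 343 := by simp [ev, c343, lev]
  have v7 : ev c7 t = 7 := by simp [ev, c7, lev]
  have vuA : ev uA t = 7 * 1 * 1 := by simp [ev, uA, lev]
  have vvA : ev vA t = 1 * 1 * (7 - 1) := by simp [ev, vA, lev]; norm_num
  have vuB : ev uB t = 7 * ev xB t * ev yB t := by rw [uB, ev_mul, ev_mul, v7]
  have vvB : ev vB t = ev xB t * ev yB t * (7 - ev xB t) := by rw [vB, ev_mul, ev_mul, ev_sub, v7]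
  have vuC : ev uC t = 7 * ev xC t * ev yC t := by rw [uC, ev_mul, ev_mul, v7]
  have vvC : ev vC t = ev xC t * ev yC t * (7 - ev xC t) := by rw [vC, ev_mul, ev_mul, ev_sub, v7]
  rw [v343, vuA, vvA, vuB, vvB] at k1 k2
  rw [v343, vuB, vvB, vuC, vvC] at k3 k4
  rw [v343, vuC, vvC, vuA, vvA] at k5 k6
  refine ⟨pv t h1, ?_, word 0 1, word 2 3, word 4 5, ?_, ?_, ?_⟩
  · intro i
    rw [pv_apply]
    exact h2 i
  · exact race (pv t h1) 0 1 2 3 (by decide) (by decide) 1 1 (ev xB t) (ev yB t)
      (pv_apply t h1 0) (pv_apply t h1 1) (pv_apply t h1 2) (pv_apply t h1 3)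
      one_pos one_pos (h1 2) (h1 3) k1 k2
  · exact race (pv t h1) 2 3 4 5 (by decide) (by decide) (ev xB t) (ev yB t) (ev xC t) (ev yC t)
      (pv_apply t h1 2) (pv_apply t h1 3) (pv_apply t h1 4) (pv_apply t h1 5)
      (h1 2) (h1 3) (h1 4) (h1 5) k3 k4
  · exact race (pv t h1) 4 5 0 1 (by decide) (by decide) (ev xC t) (ev yC t) 1 1
      (pv_apply t h1 4) (pv_apply t h1 5) (pv_apply t h1 0) (pv_apply t h1 1)
      (h1 4) (h1 5) one_pos one_pos k5 k6

end Lists

end Pool.Agent.Results.MP_8d137a_pr.CyclesNearUniform
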